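import Pool.Agent.Helper54.CG.Goals

/-!
# Project CG (MP_c70db9_ag): P2c, the plane curve is reduced for general `l`
-/

set_option autoImplicit false

namespace Pool.Agent.Helper98.CG.P2c

open MvPolynomial Pool.Agent.Helper16.Cusp
open Pool.Agent.Helper54.CG

/-- restriction to the line `(3,1,t)` -/
noncomputable def rh : R →ₐ[ℂ] Polynomial ℂ := aeval ![3, 1, Polynomial.X]

theorem rh_monomial (d : Fin 3 →₀ ℕ) (c : ℂ) :
    rh (monomial d c) = Polynomial.C (c * 3 ^ d 0) * Polynomial.X ^ d 2 := by
  unfold rh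
  rw [aeval_monomial, Finsupp.prod_fintype _ _ (fun i => by simp), Fin.prod_univ_three]
  have h3 : (Polynomial.C 3 : Polynomial ℂ) = 3 := map_ofNat Polynomial.C 3
  simp [mul_assoc, h3]

theorem rh_eval (P : R) (t : ℂ) : Polynomial.eval t (rh P) = eval ![3, 1, t] P := by
  unfold rh
  induction P using MvPolynomial.induction_on with
  | C a => simp
  | add p q hp hq => rw [map_add, Polynomial.eval_add, hp, hq, map_add]
  | mul_X p i hp =>
    rw [map_mul, Polynomial.eval_mul, hp, map_mul, aeval_X, eval_X]
    congr 1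
    fin_cases i <;> simp

theorem natDegree_rh_le (P : R) : (rh P).natDegree ≤ P.totalDegree := by
  conv_lhs => rw [P.as_sum]
  rw [map_sum]
  refine Polynomial.natDegree_sum_le_of_forall_le _ _ fun d hd => ?_
  rw [rh_monomial]
  refine (Polynomial.natDegree_C_mul_X_pow_le _ _).trans ?_
  refine le_trans ?_ (le_totalDegree hd)
  rw [Finsupp.sum_fintype _ _ (fun _ => rfl), Fin.sum_univ_three]
  omega

theorem coeff_rh {F : R} {D : ℕ} (hF : F.IsHomogeneous D) :
    (rh F).coeff D = eval ![0, 0, 1] F := by
  conv_lhs => rw [F.as_sum]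
  conv_rhs => rw [F.as_sum]
  rw [map_sum, map_sum, Polynomial.finsetSum_coeff]
  refine Finset.sum_congr rfl fun d hd => ?_
  rw [rh_monomial, Polynomial.coeff_C_mul_X_pow, eval_monomial,
    Finsupp.prod_fintype _ _ (fun i => by simp), Fin.prod_univ_three]
  have h1 : d 0 + d 1 + d 2 = D := by
    have := hF (mem_support_iff.1 hd)
    rw [← this, Finsupp.weight_apply, Finsupp.sum_fintype _ _ (fun _ => by simp),
      Fin.sum_univ_three]
    simp
  by_cases h2 : d 2 = D
  · have h3 : d 0 = 0 := by omega
    have h4 : d 1 = 0 := by omega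
    rw [if_pos h2.symm, h3, h4]
    simp
  · rw [if_neg (fun h => h2 h.symm)]
    have h3 : d 0 ≠ 0 ∨ d 1 ≠ 0 := by omega
    rcases h3 with h3 | h3
    · simp [h3]
    · simp [h3]

/-- the chain rule -/
theorem chain (g : Fin 3 → R) (F : R) (i : Fin 3) :
    pderiv i (aeval g F) = ∑ j, aeval g (pderiv j F) * pderiv i (g j) := by
  induction F using MvPolynomial.induction_on with
  | C a =>
    rw [aeval_C]
    simp
  | add p q hp hq =>
    simp only [map_add, hp, hq, add_mul, Finset.sum_add_distrib]
  | mul_X p k hp =>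
    have e : ∀ j : Fin 3, aeval g (pderiv j (p * X k)) * pderiv i (g j) =
        g k * (aeval g (pderiv j p) * pderiv i (g j)) +
          (if j = k then aeval g p * pderiv i (g k) else 0) := by
      intro j
      rw [Derivation.leibniz, pderiv_X]
      by_cases h : j = k
      · subst h
        simp
        ring
      · rw [if_neg h]
        simp [h, Pi.single_apply]
        ring
    simp only [e]
    rw [Finset.sum_add_distrib, ← Finset.mul_sum, ← hp, map_mul, aeval_X, Derivation.leibniz]
    simp
    ring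

theorem eval_dbl (l : ℂ) (F : R) (v : V) :
    eval v (dbl l F) = eval ![v 0, v 2 ^ 2 + l * v 1 ^ 2, v 1] F := by
  unfold dbl
  induction F using MvPolynomial.induction_on with
  | C a => simp
  | add p q hp hq => rw [map_add, map_add, hp, hq, map_add]
  | mul_X p k hp =>
    rw [map_mul, map_mul, hp, map_mul, aeval_X, eval_X]
    congr 1
    fin_cases k <;> simp

theorem sqf {F : R} {n κ τ : ℕ} (h : G_P2a) (hF : Lev F n κ τ) {l : ℂ}
    (hl : eval ![3, l, 1] F ≠ 0) : Squarefree (dbl l F) := by
  have hh : (dbl l F).IsHomogeneous n := h F n l hF.homog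
  have h001 : eval ![0, 0, 1] (dbl l F) ≠ 0 := by
    rw [eval_dbl]
    have e : (![(![0, 0, 1] : V) 0, (![0, 0, 1] : V) 2 ^ 2 + l * (![0, 0, 1] : V) 1 ^ 2,
        (![0, 0, 1] : V) 1] : V) = ![0, 1, 0] := by
      funext i
      fin_cases i <;> simp
    rw [e]
    exact hF.nb
  have hF0 : dbl l F ≠ 0 := by
    intro h0
    rw [h0] at h001
    simp at h001
  have hD : (dbl l F).totalDegree = n := hh.totalDegree hF0
  have hdeg : n ≤ (rh (dbl l F)).natDegree := by
    apply Polynomial.le_natDegree_of_ne_zero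
    rw [coeff_rh hh]
    exact h001
  intro G hG
  obtain ⟨H, hH⟩ := hG
  have hG0 : G ≠ 0 := by
    rintro rfl
    apply hF0
    rw [hH]
    simp
  have hH0 : H ≠ 0 := by
    rintro rfl
    apply hF0
    rw [hH]
    simp
  have h2 : (dbl l F).totalDegree = G.totalDegree + G.totalDegree + H.totalDegree := by
    rw [hH, totalDegree_mul_of_isDomain (mul_ne_zero hG0 hG0) hH0,
      totalDegree_mul_of_isDomain hG0 hG0]
  have h3 : (rh (dbl l F)).natDegree ≤ (rh G).natDegree + (rh G).natDegree + (rh H).natDegree := by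
    rw [hH, map_mul, map_mul]
    exact Polynomial.natDegree_mul_le.trans (Nat.add_le_add_right Polynomial.natDegree_mul_le _)
  have h4 := natDegree_rh_le G
  have h5 := natDegree_rh_le H
  have h6 : (rh G).natDegree = G.totalDegree := by omega
  by_contra hunit
  have h7 : G.totalDegree ≠ 0 := by
    intro h
    rw [totalDegree_eq_zero_iff_eq_C] at h
    apply hunit
    rw [h]
    refine IsUnit.map C (isUnit_iff_ne_zero.2 ?_)
    intro hc
    rw [hc, map_zero] at h
    exact hG0 h
  obtain ⟨t, ht⟩ := IsAlgClosed.exists_root (rh G) (by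
    intro h
    apply h7
    rw [← h6]
    exact Polynomial.natDegree_eq_of_degree_eq_some h)
  have h8 : eval ![3, 1, t] G = 0 := by rw [← rh_eval]; exact ht
  have h9 : eval ![3, 1, t] (dbl l F) = 0 := by
    rw [hH, map_mul, map_mul, h8]
    simp
  have h10 : ∀ i, eval ![3, 1, t] (pderiv i (dbl l F)) = 0 := by
    intro i
    rw [hH, Derivation.leibniz, Derivation.leibniz]
    simp [h8]
  have e2 : (![(![3, 1, t] : V) 0, (![3, 1, t] : V) 2 ^ 2 + l * (![3, 1, t] : V) 1 ^ 2,
      (![3, 1, t] : V) 1] : V) = ![3, t ^ 2 + l, 1] := by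
    funext i
    fin_cases i <;> simp
  have h11 : eval ![3, t ^ 2 + l, 1] F = 0 := by
    rw [← h9, eval_dbl, e2]
  rcases eq_or_ne t 0 with h0 | h0
  · subst h0
    apply hl
    rw [← h11]
    congr 2
    simp
  obtain ⟨i, hi⟩ := hF.smooth (t ^ 2 + l) h11
  have key : ∀ i, eval ![3, 1, t] (pderiv i (dbl l F)) =
      ∑ j, eval ![3, t ^ 2 + l, 1] (pderiv j F) *
        eval ![3, 1, t] (pderiv i ((![X 0, X 2 ^ 2 + C l * X 1 ^ 2, X 1] : Fin 3 → R) j)) := by
    intro i
    have : dbl l F = aeval ![X 0, X 2 ^ 2 + C l * X 1 ^ 2, X 1] F := rfl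
    rw [this, chain, map_sum]
    refine Finset.sum_congr rfl fun j _ => ?_
    rw [map_mul]
    congr 1
    have := eval_dbl l (pderiv j F) ![3, 1, t]
    rw [e2] at this
    exact this
  have k0 := (key 0).symm.trans (h10 0)
  have k1 := (key 1).symm.trans (h10 1)
  have k2 := (key 2).symm.trans (h10 2)
  rw [Fin.sum_univ_three] at k0 k1 k2
  simp [pderiv_X, Derivation.leibniz, Derivation.leibniz_pow, Pi.single_apply, h0] at k0 k1 k2
  apply hi
  rw [k2] at k1
  fin_cases i
  · exact k0
  · exact k2
  · simpa using k1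

theorem t (h : G_P2a) : G_P2c := by
  intro F n κ τ hF
  have hp : (aeval ![3, Polynomial.X, 1] F : Polynomial ℂ) ≠ 0 := by
    intro h0
    apply hF.n3
    have e : ∀ P : R, eval ![3, 3, 1] P = Polynomial.eval 3 (aeval ![3, Polynomial.X, 1] P) := by
      intro P
      induction P using MvPolynomial.induction_on with
      | C a => simp
      | add p q hp hq => rw [map_add, map_add, Polynomial.eval_add, hp, hq]
      | mul_X p k hp =>
        rw [map_mul, map_mul, Polynomial.eval_mul, hp, aeval_X, eval_X]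
        congr 1
        fin_cases k <;> simp
    rw [e, h0]
    simp
  refine ⟨(aeval ![3, Polynomial.X, 1] F : Polynomial ℂ).roots.toFinset, fun l hl => ?_⟩
  refine sqf h hF fun h0 => hl ?_
  rw [Multiset.mem_toFinset, Polynomial.mem_roots hp, Polynomial.IsRoot.def]
  have e : ∀ P : R, eval ![3, l, 1] P = Polynomial.eval l (aeval ![3, Polynomial.X, 1] P) := by
    intro P
    induction P using MvPolynomial.induction_on with
    | C a => simp
    | add p q hp hq => rw [map_add, map_add, Polynomial.eval_add, hp, hq]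
    | mul_X p k hp =>
      rw [map_mul, map_mul, Polynomial.eval_mul, hp, aeval_X, eval_X]
      congr 1
      fin_cases k <;> simp
  rw [← e, h0]

end Pool.Agent.Helper98.CG.P2c
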